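import Mathlib
import Pool.Agent.TH923.DM.Defs

/-!
# The local combinatorial inequalities (job 1460, for helper923)
-/

set_option autoImplicit false

namespace Pool.Agent.TH692.DMLOC

open Finset

universe w

/-- sum of a monotone function over a finite set of naturals -/
theorem sum_range_card_le (f : ℕ → ℝ) (hf : Monotone f) (S : Finset ℕ) :
    ∑ l ∈ range S.card, f l ≤ ∑ l ∈ S, f l := by
  induction S using Finset.induction_on_max with
  | empty => simp
  | insert a S ha ih =>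
    have hn : a ∉ S := fun h => lt_irrefl _ (ha a h)
    rw [card_insert_of_notMem hn, sum_range_succ, sum_insert hn, add_comm]
    have hc : S.card ≤ a := by
      have : S ⊆ range a := fun x hx => mem_range.2 (ha x hx)
      simpa using card_le_card this
    exact add_le_add (hf hc) ih

theorem geom_le (q : ℝ) (hq : 2 ≤ q) (m : ℕ) : ∑ l ∈ range m, q ^ l ≤ q ^ m := by
  induction m with
  | zero => simp
  | succ m ih =>
    rw [sum_range_succ, pow_succ]
    have : 0 < q ^ m := by positivity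
    nlinarith

theorem geom_split (q : ℝ) (hq : 2 ≤ q) (m i : ℕ) :
    ∑ l ∈ range m, q ^ l ≤ q ^ i * (∑ l ∈ range (m - i), q ^ l + 1) := by
  rcases le_total i m with h | h
  · obtain ⟨k, rfl⟩ := Nat.exists_eq_add_of_le h
    rw [sum_range_add]
    have h1 := geom_le q hq i
    have h2 : ∑ x ∈ range k, q ^ (i + x) = q ^ i * ∑ x ∈ range k, q ^ x := by
      rw [mul_sum]
      exact sum_congr rfl fun x _ => pow_add _ _ _
    rw [h2, Nat.add_sub_cancel_left]
    linarith
  · have h1 := geom_le q hq m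
    have h2 : q ^ m ≤ q ^ i := pow_le_pow_right₀ (by linarith) h
    rw [Nat.sub_eq_zero_of_le h]
    simp
    linarith

theorem card_small {h : ℕ} (m i : ℕ) (s : ℕ → Fin h)
    (hs : ∀ l < m, ∀ l' < m, s l = s l' → l = l') :
    ((range m).filter (fun l => (s l : ℕ) < i)).card ≤ i := by
  have h1 : ((range m).filter (fun l => (s l : ℕ) < i)).card ≤ (range i).card := by
    apply card_le_card_of_injOn (fun l => (s l : ℕ))
    · intro l hl
      simp only [coe_filter, mem_range, Set.mem_ofPred_eq] at hl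
      simpa using hl.2
    · intro l hl l' hl' hh
      simp only [coe_filter, mem_range, Set.mem_ofPred_eq] at hl hl'
      exact hs l hl.1 l' hl'.1 (Fin.ext hh)
  simpa using h1

theorem card_small' {h : ℕ} (m i : ℕ) (s : ℕ → Fin h) (sD : Fin h)
    (hs : ∀ l < m, ∀ l' < m, s l = s l' → l = l') (hD : ∀ l < m, s l ≠ sD)
    (hi : (sD : ℕ) < i) :
    ((range m).filter (fun l => (s l : ℕ) < i)).card + 1 ≤ i := by
  have h1 : ((range m).filter (fun l => (s l : ℕ) < i)).card ≤ ((range i).erase sD).card := by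
    apply card_le_card_of_injOn (fun l => (s l : ℕ))
    · intro l hl
      simp only [coe_filter, mem_range, Set.mem_ofPred_eq] at hl
      simp only [coe_erase, coe_range, Set.mem_sdiff, Set.mem_Iio, Set.mem_singleton_iff]
      exact ⟨hl.2, fun hh => hD l hl.1 (Fin.ext hh)⟩
    · intro l hl l' hl' hh
      simp only [coe_filter, mem_range, Set.mem_ofPred_eq] at hl hl'
      exact hs l hl.1 l' hl'.1 (Fin.ext hh)
  rw [card_erase_of_mem (mem_range.2 hi), card_range] at h1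
  omega

/-- the part with large `s` -/
theorem big_part (q : ℝ) (hq : 2 ≤ q) {h : ℕ} (m i k : ℕ) (s : ℕ → Fin h)
    (hk : ((range m).filter (fun l => (s l : ℕ) < i)).card ≤ k) :
    ∑ l ∈ range (m - k), q ^ l ≤
      ∑ l ∈ range m, q ^ l - ∑ l ∈ range m, (if (s l : ℕ) < i then q ^ l else 0) := by
  have hmono : Monotone (fun l : ℕ => q ^ l) := fun a b hab =>
    pow_le_pow_right₀ (by linarith) hab
  have h1 := sum_range_card_le (fun l => q ^ l) hmono
    ((range m).filter (fun l => ¬ (s l : ℕ) < i))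
  have h2 := card_filter_add_card_filter_not (s := range m) (fun l => (s l : ℕ) < i)
  rw [card_range] at h2
  have h3 : ∑ l ∈ range m, q ^ l - ∑ l ∈ range m, (if (s l : ℕ) < i then q ^ l else 0) =
      ∑ l ∈ (range m).filter (fun l => ¬ (s l : ℕ) < i), q ^ l := by
    rw [← sum_filter_add_sum_filter_not (range m) (fun l => (s l : ℕ) < i) (fun l => q ^ l),
      sum_filter (fun l => (s l : ℕ) < i)]
    ring
  rw [h3]
  refine le_trans ?_ h1
  apply sum_le_sum_of_subset_of_nonneg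
  · apply range_subset_range.2
    omega
  · intro _ _ _
    positivity

theorem claimA (q : ℝ) (hq : 2 ≤ q) {h : ℕ} (m i : ℕ) (s : ℕ → Fin h)
    (hs : ∀ l < m, ∀ l' < m, s l = s l' → l = l') :
    (q ^ i)⁻¹ * ∑ l ∈ range m, q ^ l - 1 ≤
      ∑ l ∈ range m, q ^ l - ∑ l ∈ range m, (if (s l : ℕ) < i then q ^ l else 0) := by
  have h1 := big_part q hq m i i s (card_small m i s hs)
  have h2 := geom_split q hq m i
  have hpos : 0 < q ^ i := by positivity
  have h3 : (q ^ i)⁻¹ * ∑ l ∈ range m, q ^ l ≤ ∑ l ∈ range (m - i), q ^ l + 1 := by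
    rw [inv_mul_le_iff₀ hpos]
    exact h2
  linarith

theorem claimB (q : ℝ) (hq : 2 ≤ q) {h : ℕ} (m i : ℕ) (s : ℕ → Fin h) (sD : Fin h)
    (hs : ∀ l < m, ∀ l' < m, s l = s l' → l = l') (hD : ∀ l < m, s l ≠ sD)
    (hi : (sD : ℕ) < i) :
    (q ^ i)⁻¹ * ∑ l ∈ range m, q ^ l - 1 + (if i ≤ m then q ^ (m - i) else 0) ≤
      ∑ l ∈ range m, q ^ l - ∑ l ∈ range m, (if (s l : ℕ) < i then q ^ l else 0) := by
  have h0 := card_small' m i s sD hs hD hi
  by_cases him : i ≤ m
  · rw [if_pos him]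
    have h1 := big_part q hq m i (i - 1) s (by omega)
    have e1 : m - (i - 1) = (m - i) + 1 := by omega
    rw [e1, sum_range_succ] at h1
    have h2 := geom_split q hq m i
    have hpos : 0 < q ^ i := by positivity
    have h3 : (q ^ i)⁻¹ * ∑ l ∈ range m, q ^ l ≤ ∑ l ∈ range (m - i), q ^ l + 1 := by
      rw [inv_mul_le_iff₀ hpos]
      exact h2
    linarith
  · rw [if_neg him]
    have := claimA q hq m i s hs
    linarith

/-- the partial sums -/
theorem core (p n A b w' h J1 : ℕ) (hp : 2 ≤ p) (hb : b ≤ A) (hA : A ≤ h)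
    (hJ : 2 * J1 ≤ p ^ A)
    (G : Type w) [Fintype G] (e : G) (hG : Fintype.card G ≤ n) (ℓ : G → ℕ) (he : ℓ e = A)
    (hl : ∀ σ, ℓ σ ≤ A) (s : G → ℕ → Fin h) (sD : Fin h)
    (hs : ∀ σ, ∀ l < ℓ σ, ∀ l' < ℓ σ, s σ l = s σ l' → l = l') (hD : ∀ l < A, s e l ≠ sD)
    (T : Type w) (X : Finset T) (ind : T → Fin h)
    (hX : ∀ i ≤ h, (X.filter (fun x => i ≤ (ind x : ℕ))).card ≤ p ^ (h - i))
    (hX' : p ^ h ≤ X.card + J1 * p ^ (h - A)) (i : ℕ) (hih : i ≤ h) :
    (∑ σ, ∑ l ∈ range (ℓ σ), (if (s σ l : ℕ) < i then (p : ℝ) ^ l else 0) +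
        (if (sD : ℕ) < i then (p : ℝ) ^ w' else 0)) * X.card +
      X.card * (-n + (p : ℝ) ^ b - ((p : ℝ) ^ i)⁻¹ * (p : ℝ) ^ b -
        ((p : ℝ) ^ i)⁻¹ * (2 * (n + 1) * J1) +
        (if (sD : ℕ) < i then ((if i ≤ A then (p : ℝ) ^ (A - i) else 0) - (p : ℝ) ^ w')
          else 0)) ≤
      (∑ σ, ∑ l ∈ range (ℓ σ), (p : ℝ) ^ l + (p : ℝ) ^ b) *
        (X.filter (fun x => (ind x : ℕ) < i)).card := by
  obtain ⟨q, hqdef⟩ : ∃ q : ℝ, q = (p : ℝ) := ⟨_, rfl⟩
  rw [← hqdef]
  have hq : 2 ≤ q := by rw [hqdef]; exact_mod_cast hp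
  have hq0 : 0 < q := by linarith
  obtain ⟨t, ht⟩ : ∃ t : ℝ, t = (q ^ i)⁻¹ := ⟨_, rfl⟩
  rw [← ht]
  have htpos : 0 < t := by rw [ht]; positivity
  have hti : t * q ^ i = 1 := by rw [ht]; exact inv_mul_cancel₀ (by positivity)
  obtain ⟨Sm, hSm⟩ : ∃ Sm : ℝ, Sm = ∑ σ, ∑ l ∈ range (ℓ σ), q ^ l := ⟨_, rfl⟩
  obtain ⟨Lm, hLm⟩ : ∃ Lm : ℝ, Lm =
    ∑ σ, ∑ l ∈ range (ℓ σ), (if (s σ l : ℕ) < i then q ^ l else 0) := ⟨_, rfl⟩
  obtain ⟨xc, hxc⟩ : ∃ xc : ℝ, xc = (X.card : ℝ) := ⟨_, rfl⟩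
  rw [← hSm, ← hLm, ← hxc]
  have hxc0 : 0 ≤ xc := by rw [hxc]; positivity
  have hSm0 : 0 ≤ Sm := by
    rw [hSm]
    exact sum_nonneg fun _ _ => sum_nonneg fun _ _ => by positivity
  -- cardinalities
  have hN : xc - q ^ (h - i) ≤ ((X.filter (fun x => (ind x : ℕ) < i)).card : ℝ) := by
    have h1 := card_filter_add_card_filter_not (s := X) (fun x => (ind x : ℕ) < i)
    have h2 := hX i hih
    have h3 : (X.filter (fun x => ¬ (ind x : ℕ) < i)).card ≤ p ^ (h - i) := by
      simpa only [not_lt] using h2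
    have h4 : ((X.filter (fun x => ¬ (ind x : ℕ) < i)).card : ℝ) ≤ q ^ (h - i) := by
      rw [hqdef]; exact_mod_cast h3
    have h5 : ((X.filter (fun x => (ind x : ℕ) < i)).card : ℝ) +
        ((X.filter (fun x => ¬ (ind x : ℕ) < i)).card : ℝ) = xc := by
      rw [hxc]; exact_mod_cast h1
    linarith
  -- total weight
  have hSmle : Sm ≤ n * q ^ A := by
    have h1 : Sm ≤ ∑ _σ : G, q ^ A := by
      rw [hSm]
      apply sum_le_sum
      intro σ _
      exact (geom_le q hq (ℓ σ)).trans (pow_le_pow_right₀ (by linarith) (hl σ))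
    rw [sum_const, card_univ, nsmul_eq_mul] at h1
    refine h1.trans ?_
    apply mul_le_mul_of_nonneg_right _ (by positivity)
    exact_mod_cast hG
  have hqb : q ^ b ≤ q ^ A := pow_le_pow_right₀ (by linarith) hb
  have hW : Sm + q ^ b ≤ (n + 1) * q ^ A := by linarith
  have hW0 : 0 ≤ Sm + q ^ b := by positivity
  have hsplit : q ^ A * q ^ (h - A) = q ^ h := by
    rw [← pow_add]; congr 1; omega
  have hX'' : q ^ h ≤ xc + J1 * q ^ (h - A) := by
    rw [hqdef, hxc]; exact_mod_cast hX'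
  have hJ' : 2 * (J1 : ℝ) ≤ q ^ A := by rw [hqdef]; exact_mod_cast hJ
  have hJ'' : 2 * (J1 : ℝ) * q ^ (h - A) ≤ q ^ h := by
    rw [← hsplit]
    exact mul_le_mul_of_nonneg_right hJ' (by positivity)
  have hhalf : q ^ h ≤ 2 * xc := by linarith
  have hWh : (Sm + q ^ b) * q ^ h ≤ (Sm + q ^ b + 2 * (n + 1) * J1) * xc := by
    have h1 : (Sm + q ^ b) * q ^ h ≤ (Sm + q ^ b) * (xc + J1 * q ^ (h - A)) :=
      mul_le_mul_of_nonneg_left hX'' hW0
    have h2 : (Sm + q ^ b) * (J1 * q ^ (h - A)) ≤ ((n + 1) * q ^ A) * (J1 * q ^ (h - A)) :=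
      mul_le_mul_of_nonneg_right hW (by positivity)
    have h3 : ((n + 1) * q ^ A) * (J1 * q ^ (h - A)) = (n + 1) * J1 * q ^ h := by
      rw [← hsplit]; ring
    have h4 : ((n : ℝ) + 1) * J1 * q ^ h ≤ (n + 1) * J1 * (2 * xc) :=
      mul_le_mul_of_nonneg_left hhalf (by positivity)
    nlinarith
  have hWi : (Sm + q ^ b) * q ^ (h - i) ≤ t * (Sm + q ^ b + 2 * (n + 1) * J1) * xc := by
    have h1 : q ^ (h - i) = t * q ^ h := by
      have h2 : q ^ h = q ^ i * q ^ (h - i) := by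
        rw [← pow_add]; congr 1; omega
      rw [h2, ← mul_assoc, hti, one_mul]
    rw [h1]
    calc (Sm + q ^ b) * (t * q ^ h) = t * ((Sm + q ^ b) * q ^ h) := by ring
      _ ≤ t * ((Sm + q ^ b + 2 * (n + 1) * J1) * xc) :=
        mul_le_mul_of_nonneg_left hWh htpos.le
      _ = _ := by ring
  -- the big parts
  obtain ⟨δ, hδ⟩ : ∃ δ : ℝ, δ =
    (if (sD : ℕ) < i then (if i ≤ A then q ^ (A - i) else 0) else 0) := ⟨_, rfl⟩
  have hbig : t * Sm - n + δ ≤ Sm - Lm := by
    classical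
    have h1 : ∀ σ, t * (∑ l ∈ range (ℓ σ), q ^ l) - 1 + (if σ = e then δ else 0) ≤
        ∑ l ∈ range (ℓ σ), q ^ l -
          ∑ l ∈ range (ℓ σ), (if (s σ l : ℕ) < i then q ^ l else 0) := by
      intro σ
      by_cases hσ : σ = e
      · rw [if_pos hσ, hδ]
        subst hσ
        by_cases hi : (sD : ℕ) < i
        · rw [if_pos hi]
          have := claimB q hq (ℓ σ) i (s σ) sD (hs σ) (by rw [he]; exact hD) hi
          rw [he, ← ht] at this
          rw [he]
          exact this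
        · rw [if_neg hi]
          have := claimA q hq (ℓ σ) i (s σ) (hs σ)
          rw [← ht] at this
          linarith
      · rw [if_neg hσ]
        have := claimA q hq (ℓ σ) i (s σ) (hs σ)
        rw [← ht] at this
        linarith
    have h2 := sum_le_sum (s := (univ : Finset G)) (fun σ _ => h1 σ)
    rw [sum_sub_distrib, sum_add_distrib, sum_sub_distrib, ← mul_sum, sum_const, card_univ,
      nsmul_eq_mul, mul_one, sum_ite_eq' univ e, if_pos (mem_univ e),
      ← hSm, ← hLm] at h2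
    have h3 : (Fintype.card G : ℝ) ≤ n := by exact_mod_cast hG
    linarith
  have hfin : (Sm + q ^ b) * (xc - q ^ (h - i)) ≤
      (Sm + q ^ b) * ((X.filter (fun x => (ind x : ℕ) < i)).card : ℝ) :=
    mul_le_mul_of_nonneg_left hN hW0
  refine le_trans ?_ hfin
  have hδ' : (if (sD : ℕ) < i then ((if i ≤ A then q ^ (A - i) else 0) - q ^ w') else 0) =
      δ - (if (sD : ℕ) < i then q ^ w' else 0) := by
    rw [hδ]
    split_ifs <;> ring
  rw [hδ']
  have hm : xc * (t * Sm - n + δ) ≤ xc * (Sm - Lm) := mul_le_mul_of_nonneg_left hbig hxc0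
  nlinarith

/-- layer-cake decomposition of `a` -/
theorem layer (a' : ℕ → ℝ) (j : ℕ) (m : ℕ) (hj : j ≤ m) :
    ∑ i ∈ range m, (if j < i + 1 then a' i - a' (i + 1) else 0) = a' j - a' m := by
  induction m, hj using Nat.le_induction with
  | base =>
    rw [sub_self]
    apply sum_eq_zero
    intro i hi
    rw [if_neg]
    have := mem_range.1 hi
    omega
  | succ m hm ih =>
    rw [sum_range_succ, ih, if_pos (by omega)]
    ring

/-- Abel summation -/
theorem abel {h : ℕ} (a : Fin h → ℝ) (a' : ℕ → ℝ) (ha' : ∀ j : Fin h, a' j = a j)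
    (hah : a' h = 0)
    (G : Type w) [Fintype G] (q : ℝ) (b w' : ℕ) (ℓ : G → ℕ) (s : G → ℕ → Fin h) (sD : Fin h)
    (T : Type w) (X : Finset T) (ind : T → Fin h) (c : ℕ → ℝ)
    (hd : ∀ i < h, 0 ≤ a' i - a' (i + 1))
    (hc : ∀ i < h, a' i - a' (i + 1) ≠ 0 →
      (∑ σ, ∑ l ∈ range (ℓ σ), (if (s σ l : ℕ) < i + 1 then q ^ l else 0) +
        (if (sD : ℕ) < i + 1 then q ^ w' else 0)) * X.card + X.card * c i ≤
      (∑ σ, ∑ l ∈ range (ℓ σ), q ^ l + q ^ b) *
        (X.filter (fun x => (ind x : ℕ) < i + 1)).card) :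
    (∑ σ, ∑ l ∈ range (ℓ σ), q ^ l * a (s σ l) + q ^ w' * a sD) * X.card +
        X.card * ∑ i ∈ range h, (a' i - a' (i + 1)) * c i ≤
    (∑ σ, ∑ l ∈ range (ℓ σ), q ^ l + q ^ b) * ∑ x ∈ X, a (ind x) := by
  have hlay : ∀ j : Fin h, a j =
      ∑ i ∈ range h, (if (j : ℕ) < i + 1 then a' i - a' (i + 1) else 0) := by
    intro j
    rw [layer a' j h j.2.le, hah, sub_zero, ha']
  have h1 : ∑ σ, ∑ l ∈ range (ℓ σ), q ^ l * a (s σ l) =
      ∑ i ∈ range h, (a' i - a' (i + 1)) *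
        ∑ σ, ∑ l ∈ range (ℓ σ), (if (s σ l : ℕ) < i + 1 then q ^ l else 0) := by
    simp only [mul_sum]
    rw [sum_comm]
    apply sum_congr rfl
    intro σ _
    rw [sum_comm]
    apply sum_congr rfl
    intro l _
    rw [hlay, mul_sum]
    apply sum_congr rfl
    intro i _
    split_ifs <;> ring
  have h2 : q ^ w' * a sD = ∑ i ∈ range h, (a' i - a' (i + 1)) *
      (if (sD : ℕ) < i + 1 then q ^ w' else 0) := by
    rw [hlay, mul_sum]
    apply sum_congr rfl
    intro i _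
    split_ifs <;> ring
  have h3 : ∑ x ∈ X, a (ind x) = ∑ i ∈ range h, (a' i - a' (i + 1)) *
      ((X.filter (fun x => (ind x : ℕ) < i + 1)).card : ℝ) := by
    have : ∀ x ∈ X, a (ind x) =
      ∑ i ∈ range h, (if (ind x : ℕ) < i + 1 then a' i - a' (i + 1) else 0) :=
      fun x _ => hlay (ind x)
    rw [sum_congr rfl this, sum_comm]
    apply sum_congr rfl
    intro i _
    rw [← sum_filter, sum_const, nsmul_eq_mul, mul_comm]
  rw [h1, h2, h3, ← sum_add_distrib, sum_mul, mul_sum, mul_sum, ← sum_add_distrib]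
  apply sum_le_sum
  intro i hi
  have hi' := mem_range.1 hi
  by_cases h0 : a' i - a' (i + 1) = 0
  · rw [h0]; simp
  · have hci := hc i hi' h0
    have hdi := hd i hi'
    have := mul_le_mul_of_nonneg_left hci hdi
    linarith

/-- `a` extended by zero -/
noncomputable def ext {h : ℕ} (a : Fin h → ℝ) (i : ℕ) : ℝ :=
  if hi : i < h then a ⟨i, hi⟩ else 0

theorem ext_fin {h : ℕ} (a : Fin h → ℝ) (j : Fin h) : ext a j = a j := by
  simp [ext]

theorem ext_h {h : ℕ} (a : Fin h → ℝ) (i : ℕ) (hi : h ≤ i) : ext a i = 0 := by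
  simp [ext, Nat.not_lt.2 hi]

theorem ext_step {h : ℕ} (a : Fin h → ℝ) (ha : Antitone a) (h0 : ∀ i, 0 ≤ a i) (i : ℕ) :
    0 ≤ ext a i - ext a (i + 1) := by
  unfold ext
  split_ifs with h1 h2 h2
  · have : a ⟨i + 1, h2⟩ ≤ a ⟨i, h1⟩ := ha (by simp [Fin.le_def])
    linarith
  · linarith [h0 ⟨i, h1⟩]
  · omega
  · simp

theorem tele (f : ℕ → ℝ) (m : ℕ) : ∑ i ∈ range m, (f i - f (i + 1)) = f 0 - f m :=
  Finset.sum_range_sub' f m

/-- the local inequality at a finite place -/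
theorem lemLOC : Pool.Agent.TH923.DM.S_LOC.{w} := by
  intro p n A b w' h J1 hp hbw hwA hAh hJ hbig G _ e hG ℓ he hl s sD hs hD T X ind hX hX' a ha
    ha0 haA
  have hA0 : 0 < h := by omega
  have hq : (2 : ℝ) ≤ p := by exact_mod_cast hp
  have hq0 : (0 : ℝ) < p := by linarith
  have hbig' : 2 * ((n : ℝ) + 2 * (n + 1) * J1 + 1) ≤ (p : ℝ) ^ b := by exact_mod_cast hbig
  -- the coefficients
  have key := abel (h := h) a (ext a) (ext_fin a) (ext_h a h le_rfl) G (p : ℝ) b w' ℓ s sD T X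
    ind (fun i => if i < A - w' then 1 else -(p : ℝ) ^ w') (fun i _ => ext_step a ha ha0 i) (by
      intro i hi _
      have hc := core p n A b w' h J1 hp (hbw.trans hwA) (by omega) hJ G e hG ℓ he hl s sD hs hD
        T X ind hX hX' (i + 1) hi
      refine le_trans ?_ hc
      apply add_le_add le_rfl
      apply mul_le_mul_of_nonneg_left _ (by positivity)
      have hti : ((p : ℝ) ^ (i + 1))⁻¹ ≤ 1 / 2 := by
        rw [one_div]
        apply inv_anti₀ (by norm_num)
        calc (2 : ℝ) = 2 * 1 := by norm_num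
          _ ≤ p * p ^ i := mul_le_mul hq (one_le_pow₀ (by linarith)) (by norm_num) (by linarith)
          _ = (p : ℝ) ^ (i + 1) := by ring
      have ht0 : 0 ≤ ((p : ℝ) ^ (i + 1))⁻¹ := by positivity
      have hpb : 0 ≤ (p : ℝ) ^ b := by positivity
      have h1 : ((p : ℝ) ^ (i + 1))⁻¹ * (p : ℝ) ^ b ≤ 1 / 2 * (p : ℝ) ^ b :=
        mul_le_mul_of_nonneg_right hti hpb
      have h2 : ((p : ℝ) ^ (i + 1))⁻¹ * (2 * (n + 1) * J1) ≤ 1 * (2 * ((n : ℝ) + 1) * J1) :=
        mul_le_mul_of_nonneg_right (by linarith) (by positivity)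
      have h3 : (1 : ℝ) ≤ -n + (p : ℝ) ^ b - ((p : ℝ) ^ (i + 1))⁻¹ * (p : ℝ) ^ b -
        ((p : ℝ) ^ (i + 1))⁻¹ * (2 * (n + 1) * J1) := by linarith
      have hw0 : 0 ≤ (p : ℝ) ^ w' := by positivity
      split_ifs with c1 c2 c3 c4
      · have h4 : (p : ℝ) ^ w' ≤ (p : ℝ) ^ (A - (i + 1)) :=
          pow_le_pow_right₀ (by linarith) (by omega)
        linarith
      · omega
      · linarith
      · have h4 : 0 ≤ (p : ℝ) ^ (A - (i + 1)) := by positivity
        linarith
      · linarith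
      · linarith)
  refine le_trans (le_add_of_nonneg_right ?_) key
  apply mul_nonneg (by positivity)
  -- telescoping
  have hsum : ∑ i ∈ range h, (ext a i - ext a (i + 1)) *
      (if i < A - w' then (1 : ℝ) else -(p : ℝ) ^ w') =
      (∑ i ∈ range (A - w'), (ext a i - ext a (i + 1))) -
      (p : ℝ) ^ w' * ((∑ i ∈ range h, (ext a i - ext a (i + 1))) -
        ∑ i ∈ range (A - w'), (ext a i - ext a (i + 1))) := by
    obtain ⟨f, hf⟩ : ∃ f : ℕ → ℝ, f = ext a := ⟨_, rfl⟩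
    rw [← hf]
    clear hf key
    obtain ⟨k, hk⟩ := Nat.exists_eq_add_of_le (show A - w' ≤ h by omega)
    obtain ⟨h', hh'⟩ : ∃ h' : ℕ, h' = h := ⟨_, rfl⟩
    rw [← hh'] at hk ⊢
    rw [hk, sum_range_add, sum_range_add]
    rw [sum_congr rfl (g := fun i => f i - f (i + 1)) (fun i hi => by
      rw [if_pos (mem_range.1 hi), mul_one])]
    rw [sum_congr (s₁ := range k) rfl (g := fun i => -(p : ℝ) ^ w' *
      (f (A - w' + i) - f (A - w' + i + 1))) (fun i hi => by
      rw [if_neg (by omega)]; ring)]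
    rw [← mul_sum]
    ring
  rw [hsum, tele, tele, ext_h a h le_rfl]
  have hi0 : A - w' < h := by omega
  have h5 := haA ⟨0, hA0⟩ ⟨A - w', hi0⟩ rfl rfl
  have e1 : ext a 0 = a ⟨0, hA0⟩ := by simp [ext, hA0]
  have e2 : ext a (A - w') = a ⟨A - w', hi0⟩ := by simp [ext, hi0]
  rw [e1, e2]
  linarith

/-- the local inequality at an infinite place -/
theorem lemLOCinf : Pool.Agent.TH923.DM.S_LOCinf.{w} := by
  intro p n A b b2 h J1 hp hb2 hbA hAh hJ hbig hn3 hJ2 G _ e hG ℓ he hl s sD hs hD T X ind hX hX'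
    a ha ha0 haA i00 hi00
  have hA0 : 0 < h := by omega
  have hq : (2 : ℝ) ≤ p := by exact_mod_cast hp
  have hq0 : (0 : ℝ) < p := by linarith
  have hbig' : 2 * ((n : ℝ) + 2 * (n + 1) * J1 + 1) ≤ (p : ℝ) ^ b := by exact_mod_cast hbig
  have hn3' : (n : ℝ) + 3 ≤ (p : ℝ) ^ b2 := by exact_mod_cast hn3
  have hJ2' : 2 * ((n : ℝ) + 1) * J1 ≤ (p : ℝ) ^ (A - b) := by exact_mod_cast hJ2
  -- the coefficients
  have key := abel (h := h) a (ext a) (ext_fin a) (ext_h a h le_rfl) G (p : ℝ) b b ℓ s sD T X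
    ind (fun _ => 1) (fun i _ => ext_step a ha ha0 i) (by
      intro i hi hne
      have hiA : i < A - b2 := by
        by_contra hcon
        apply hne
        have z1 : ext a i = 0 := by
          unfold ext
          rw [dif_pos hi]
          exact haA _ (by simpa using hcon)
        have z2 : ext a (i + 1) = 0 := by
          unfold ext
          split_ifs with hh
          · exact haA _ (by simp only; omega)
          · rfl
        rw [z1, z2, sub_zero]
      have hc := core p n A b b h J1 hp (by omega) (by omega) hJ G e hG ℓ he hl s sD hs hD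
        T X ind hX hX' (i + 1) hi
      refine le_trans ?_ hc
      apply add_le_add le_rfl
      apply mul_le_mul_of_nonneg_left _ (by positivity)
      have hti : ((p : ℝ) ^ (i + 1))⁻¹ ≤ 1 / 2 := by
        rw [one_div]
        apply inv_anti₀ (by norm_num)
        calc (2 : ℝ) = 2 * 1 := by norm_num
          _ ≤ p * p ^ i := mul_le_mul hq (one_le_pow₀ (by linarith)) (by norm_num) (by linarith)
          _ = (p : ℝ) ^ (i + 1) := by ring
      have ht0 : 0 ≤ ((p : ℝ) ^ (i + 1))⁻¹ := by positivity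
      have hpb : 0 ≤ (p : ℝ) ^ b := by positivity
      have h1 : ((p : ℝ) ^ (i + 1))⁻¹ * (p : ℝ) ^ b ≤ 1 / 2 * (p : ℝ) ^ b :=
        mul_le_mul_of_nonneg_right hti hpb
      have h2 : ((p : ℝ) ^ (i + 1))⁻¹ * (2 * (n + 1) * J1) ≤ 1 * (2 * ((n : ℝ) + 1) * J1) :=
        mul_le_mul_of_nonneg_right (by linarith) (by positivity)
      have h3 : (1 : ℝ) ≤ -n + (p : ℝ) ^ b - ((p : ℝ) ^ (i + 1))⁻¹ * (p : ℝ) ^ b -
        ((p : ℝ) ^ (i + 1))⁻¹ * (2 * (n + 1) * J1) := by linarith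
      rw [if_pos (show i + 1 ≤ A by omega)]
      split_ifs with c1
      · rcases Nat.lt_or_ge i (A - b) with c2 | c2
        · have h4 : (p : ℝ) ^ b ≤ (p : ℝ) ^ (A - (i + 1)) :=
            pow_le_pow_right₀ (by linarith) (by omega)
          linarith
        · have h4 : (p : ℝ) ^ b2 ≤ (p : ℝ) ^ (A - (i + 1)) :=
            pow_le_pow_right₀ (by linarith) (by omega)
          have h5 : ((p : ℝ) ^ (i + 1))⁻¹ * (p : ℝ) ^ b ≤ 1 := by
            rw [inv_mul_le_iff₀ (by positivity), mul_one]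
            exact pow_le_pow_right₀ (by linarith) (by omega)
          have h6 : ((p : ℝ) ^ (i + 1))⁻¹ * (2 * (n + 1) * J1) ≤ 1 := by
            rw [inv_mul_le_iff₀ (by positivity), mul_one]
            exact hJ2'.trans (pow_le_pow_right₀ (by linarith) (by omega))
          linarith
      · linarith)
  have e1 : ext a 0 = a i00 := by
    have : i00 = ⟨0, hA0⟩ := Fin.ext hi00
    rw [this]
    simp [ext, hA0]
  have hsum : ∑ i ∈ range h, (ext a i - ext a (i + 1)) * 1 = a i00 := by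
    simp only [mul_one]
    rw [tele, ext_h a h le_rfl, e1, sub_zero]
  rw [hsum] at key
  refine le_trans (le_of_eq ?_) key
  ring

end Pool.Agent.TH692.DMLOC
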